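import Mathlib

/-!
# Nonlinearity of the ortho-derivative of a quadratic APN function

The ortho-derivative of a quadratic APN function on `F_2 ^ n`, `n ≥ 3`, can have nonlinearity zero
if and only if `n = 3`.

Proof for `n ≥ 4`. Let `B(x, y) = F(x + y) + F(x) + F(y) + F(0)` and let `b · π(x) = u · x` for all
`x` (`b ≠ 0`). For `x ≠ 0` the vector `b` is of the form `B(x, y)` if and only if `b · π(x) = 0`, and
then `y` is unique up to adding `x`. Hence the nonzero vectors of the subspace `K = {u · x = 0}` are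
partitioned into triples `{x, y, x + y}` with `B(x, y) = b`. For linear forms `φ, ψ` the number of
triples on which `φ` and `ψ` are linearly independent is even, since `K` has at least `8` elements;
so the sum of `β(x, y)` over all triples vanishes for every alternating bilinear form `β`. But for
`β = l · B` with `l · b = 1` all terms are `1` and the number of triples is odd.
-/

set_option autoImplicit false

namespace Pool.Agent.Results.MP_4cfb12_co.OnlyDimThreeH18

open Finset

/-- The vector space `F_2 ^ n`. -/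
abbrev V (n : ℕ) : Type := Fin n → ZMod 2

/-- The derivative `D_a F (x) = F (x + a) + F (x)`. -/
def deriv {n : ℕ} (F : V n → V n) (a x : V n) : V n := F (x + a) + F x

/-- `F` is APN: for `a ≠ 0` and every `b` the equation `D_a F (x) = b` has at most two solutions. -/
def IsAPN {n : ℕ} (F : V n → V n) : Prop :=
  ∀ a : V n, a ≠ 0 → ∀ b : V n, {x : V n | deriv F a x = b}.ncard ≤ 2

/-- All coordinates of `F` are given by polynomials of total degree at most `d`, that is, the
algebraic degree of `F` is at most `d`. -/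
def DegreeLE {n : ℕ} (F : V n → V n) (d : ℕ) : Prop :=
  ∀ i : Fin n, ∃ p : MvPolynomial (Fin n) (ZMod 2), p.totalDegree ≤ d ∧
    ∀ x : V n, MvPolynomial.eval x p = F x i

/-- The algebraic degree of `F` equals two. -/
def IsQuadratic {n : ℕ} (F : V n → V n) : Prop := DegreeLE F 2 ∧ ¬ DegreeLE F 1

open Classical in
/-- The ortho-derivative: `π_F (0) = 0`, and for `a ≠ 0` the vector `π_F (a)` is a nonzero vector
orthogonal to all vectors `D_a F (x) + D_a F (0)` (for a quadratic APN function there is exactly one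
such vector). -/
noncomputable def orthoDerivative {n : ℕ} (F : V n → V n) (a : V n) : V n :=
  if a = 0 then 0
  else Classical.epsilon fun u : V n => u ≠ 0 ∧ ∀ x : V n, u ⬝ᵥ (deriv F a x + deriv F a 0) = 0

/-- The nonlinearity: the minimum of the number of `x` with `b · G (x) ≠ ℓ (x)` over all `b ≠ 0` and
all affine functions `ℓ (x) = u · x + c`. -/
noncomputable def nonlinearity {n : ℕ} (G : V n → V n) : ℕ :=
  sInf {N : ℕ | ∃ b : V n, b ≠ 0 ∧ ∃ (u : V n) (c : ZMod 2),
    N = {x : V n | b ⬝ᵥ G x ≠ u ⬝ᵥ x + c}.ncard}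

section general

variable {n : ℕ}

theorem add_self' (x : V n) : x + x = 0 := by
  funext i
  exact CharTwo.add_self_eq_zero (x i)

theorem z2 (a : ZMod 2) : a = 0 ∨ a = 1 := by
  revert a; decide

/-- second difference -/
def B (F : V n → V n) (x y : V n) : V n := F (x + y) + F x + F y + F 0

theorem third_monomial (s : Multiset (Fin n)) (hs : s.card ≤ 2) (x y z : V n) :
    (s.map (x + y + z)).prod + (s.map (x + y)).prod + (s.map (x + z)).prod + (s.map (y + z)).prod
      + (s.map x).prod + (s.map y).prod + (s.map z).prod + (s.map (0 : V n)).prod = 0 := by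
  have h : s.card = 0 ∨ s.card = 1 ∨ s.card = 2 := by omega
  rcases h with h | h | h
  · rw [Multiset.card_eq_zero] at h
    subst h
    simp only [Multiset.map_zero, Multiset.prod_zero]
    decide
  · obtain ⟨i, rfl⟩ := Multiset.card_eq_one.1 h
    simp only [Multiset.map_singleton, Multiset.prod_singleton, Pi.add_apply, Pi.zero_apply]
    generalize x i = a
    generalize y i = b
    generalize z i = c
    revert a b c
    decide
  · obtain ⟨i, j, rfl⟩ := Multiset.card_eq_two.1 h
    simp only [Multiset.insert_eq_cons, Multiset.map_cons, Multiset.map_singleton,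
      Multiset.prod_cons, Multiset.prod_singleton, Pi.add_apply, Pi.zero_apply]
    generalize x i = a
    generalize y i = b
    generalize z i = c
    generalize x j = a'
    generalize y j = b'
    generalize z j = c'
    revert a b c a' b' c'
    decide

theorem eval_eq_sum (p : MvPolynomial (Fin n) (ZMod 2)) (x : V n) :
    MvPolynomial.eval x p =
      ∑ m ∈ p.support, p.coeff m * ((Finsupp.toMultiset m).map x).prod := by
  rw [MvPolynomial.eval_eq]
  refine Finset.sum_congr rfl fun m _ => ?_
  congr 1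
  rw [Finsupp.toMultiset_map, Finsupp.prod_toMultiset, Finsupp.prod_mapDomain_index]
  · rfl
  · intro b; simp
  · intro b m₁ m₂; rw [pow_add]

theorem third_poly (p : MvPolynomial (Fin n) (ZMod 2)) (hp : p.totalDegree ≤ 2) (x y z : V n) :
    MvPolynomial.eval (x + y + z) p + MvPolynomial.eval (x + y) p + MvPolynomial.eval (x + z) p
      + MvPolynomial.eval (y + z) p + MvPolynomial.eval x p + MvPolynomial.eval y p
      + MvPolynomial.eval z p + MvPolynomial.eval (0 : V n) p = 0 := by
  simp only [eval_eq_sum, ← Finset.sum_add_distrib]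
  refine Finset.sum_eq_zero fun m hm => ?_
  have hc : (Finsupp.toMultiset m).card ≤ 2 := by
    rw [Finsupp.card_toMultiset]
    exact (MvPolynomial.le_totalDegree hm).trans hp
  have := third_monomial (Finsupp.toMultiset m) hc x y z
  rw [← mul_add, ← mul_add, ← mul_add, ← mul_add, ← mul_add, ← mul_add, ← mul_add, this, mul_zero]

theorem B_add {F : V n → V n} (hF : DegreeLE F 2) (x y z : V n) :
    B F x (y + z) = B F x y + B F x z := by
  funext i
  obtain ⟨p, hp, h⟩ := hF i
  have := third_poly p hp x y z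
  simp only [h] at this
  simp only [B, Pi.add_apply, ← add_assoc]
  generalize F (x + y + z) i = a1 at *
  generalize F (x + y) i = a2 at *
  generalize F (x + z) i = a3 at *
  generalize F (y + z) i = a4 at *
  generalize F x i = a5 at *
  generalize F y i = a6 at *
  generalize F z i = a7 at *
  generalize F 0 i = a8 at *
  revert a1 a2 a3 a4 a5 a6 a7 a8
  decide

theorem B_comm (F : V n → V n) (x y : V n) : B F x y = B F y x := by
  unfold B
  rw [add_comm x y]
  abel

theorem B_self (F : V n → V n) (x : V n) : B F x x = 0 := by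
  unfold B
  rw [add_self' x, add_assoc (F 0), add_self', add_zero, add_self']

theorem B_zero (F : V n → V n) (x : V n) : B F x 0 = 0 := by
  unfold B
  rw [add_zero, add_self', zero_add, add_self']

theorem deriv_eq (F : V n → V n) (a x : V n) : deriv F a x + deriv F a 0 = B F a x := by
  unfold deriv B
  rw [zero_add, add_comm x a]
  abel

/-- `B(a, ·)` as a linear map -/
def Blin {F : V n → V n} (hF : DegreeLE F 2) (a : V n) : V n →ₗ[ZMod 2] V n :=
  (AddMonoidHom.mk' (B F a) (B_add hF a)).toZModLinearMap 2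

theorem Blin_apply {F : V n → V n} (hF : DegreeLE F 2) (a x : V n) : Blin hF a x = B F a x := rfl

theorem B_eq_zero {F : V n → V n} (hA : IsAPN F) {a x : V n} (ha : a ≠ 0)
    (h : B F a x = 0) : x = 0 ∨ x = a := by
  by_contra hcon
  push Not at hcon
  obtain ⟨h0, h1⟩ := hcon
  have hle := hA a ha (deriv F a 0)
  have key : ∀ y, B F a y = 0 → deriv F a y = deriv F a 0 := by
    intro y hy
    have := deriv_eq F a y
    rw [hy] at this
    calc deriv F a y = deriv F a y + (deriv F a 0 + deriv F a 0) := by rw [add_self', add_zero]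
      _ = (deriv F a y + deriv F a 0) + deriv F a 0 := by rw [add_assoc]
      _ = deriv F a 0 := by rw [this, zero_add]
  have hsub : ({0, a, x} : Finset (V n)) ⊆ (Set.toFinset {y : V n | deriv F a y = deriv F a 0}) := by
    intro y hy
    rw [Set.mem_toFinset]
    simp only [Finset.mem_insert, Finset.mem_singleton] at hy
    rcases hy with rfl | rfl | rfl
    · rfl
    · exact key _ (B_self F _)
    · exact key _ h
  have hcard := Finset.card_le_card hsub
  rw [Finset.card_eq_three.2 ⟨0, a, x, ha.symm, h0.symm, fun h => h1 h.symm, rfl⟩] at hcard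
  rw [Set.ncard_eq_toFinset_card'] at hle
  omega

theorem finrank_V : Module.finrank (ZMod 2) (V n) = n := by simp

/-- the linear form `x ↦ u · x` -/
def dotl (u : V n) : V n →ₗ[ZMod 2] ZMod 2 where
  toFun x := u ⬝ᵥ x
  map_add' x y := dotProduct_add u x y
  map_smul' c x := by simp [dotProduct_smul]

theorem exists_dot_ne {b : V n} (hb : b ≠ 0) : ∃ l : V n, l ⬝ᵥ b = 1 := by
  obtain ⟨i, hi⟩ := Function.ne_iff.1 hb
  refine ⟨Pi.single i 1, ?_⟩
  rw [single_dotProduct, one_mul]
  exact (z2 (b i)).resolve_left hi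

theorem ker_Blin {F : V n → V n} (hF : DegreeLE F 2) (hA : IsAPN F) {a : V n} (ha : a ≠ 0) :
    LinearMap.ker (Blin hF a) = Submodule.span (ZMod 2) {a} := by
  ext x
  rw [LinearMap.mem_ker, Blin_apply, Submodule.mem_span_singleton]
  constructor
  · intro h
    rcases B_eq_zero hA ha h with rfl | rfl
    · exact ⟨0, zero_smul _ _⟩
    · exact ⟨1, one_smul _ _⟩
  · rintro ⟨c, rfl⟩
    rcases z2 c with rfl | rfl
    · rw [zero_smul, B_zero]
    · rw [one_smul, B_self]

theorem finrank_range {F : V n → V n} (hF : DegreeLE F 2) (hA : IsAPN F) {a : V n} (ha : a ≠ 0) :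
    Module.finrank (ZMod 2) (LinearMap.range (Blin hF a)) + 1 = n := by
  have h := LinearMap.finrank_range_add_finrank_ker (Blin hF a)
  rw [ker_Blin hF hA ha, finrank_span_singleton ha, finrank_V] at h
  exact h

theorem exists_ortho {F : V n → V n} (hF : DegreeLE F 2) (hA : IsAPN F) {a : V n} (ha : a ≠ 0) :
    ∃ u : V n, u ≠ 0 ∧ ∀ x : V n, u ⬝ᵥ (deriv F a x + deriv F a 0) = 0 := by
  have hlt : LinearMap.range (Blin hF a) < ⊤ := by
    rw [lt_top_iff_ne_top]
    intro h
    have h1 := finrank_range hF hA ha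
    rw [h, finrank_top, finrank_V] at h1
    omega
  obtain ⟨f, hf, hle⟩ := Submodule.exists_le_ker_of_lt_top _ hlt
  refine ⟨fun i => f (Pi.single i 1), ?_, ?_⟩
  · intro h0
    apply hf
    apply LinearMap.pi_ext'
    intro i
    ext
    exact congrFun h0 i
  · intro x
    rw [deriv_eq]
    have h1 : f (B F a x) = 0 := hle ⟨x, rfl⟩
    have h2 : ∀ y : V n, (fun i => f (Pi.single i 1)) ⬝ᵥ y = f y := by
      intro y
      have : y = ∑ i, y i • (Pi.single i 1 : V n) := by
        funext j
        simp [Finset.sum_apply, Pi.single_apply]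
      conv_rhs => rw [this]
      rw [map_sum]
      simp only [dotProduct, map_smul, smul_eq_mul]
      exact Finset.sum_congr rfl fun i _ => mul_comm _ _
    rw [h2, h1]

theorem ortho_spec {F : V n → V n} (hF : DegreeLE F 2) (hA : IsAPN F) {a : V n} (ha : a ≠ 0) :
    orthoDerivative F a ≠ 0 ∧ ∀ x : V n, orthoDerivative F a ⬝ᵥ B F a x = 0 := by
  have h := Classical.epsilon_spec (exists_ortho hF hA ha)
  have e : orthoDerivative F a = Classical.epsilon fun u : V n => u ≠ 0 ∧
      ∀ x : V n, u ⬝ᵥ (deriv F a x + deriv F a 0) = 0 := by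
    unfold orthoDerivative
    rw [if_neg ha]
  rw [← e] at h
  refine ⟨h.1, fun x => ?_⟩
  rw [← deriv_eq]
  exact h.2 x

/-- `b` is of the form `B(a, y)` if `π(a) · b = 0` -/
theorem exists_partner {F : V n → V n} (hF : DegreeLE F 2) (hA : IsAPN F) {a b : V n} (ha : a ≠ 0)
    (hb : orthoDerivative F a ⬝ᵥ b = 0) : ∃ y, B F a y = b := by
  obtain ⟨h1, h2⟩ := ortho_spec hF hA ha
  have hle : LinearMap.range (Blin hF a) ≤ LinearMap.ker (dotl (orthoDerivative F a)) := by
    rintro _ ⟨x, rfl⟩
    exact h2 x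
  have hr := finrank_range hF hA ha
  have hk := LinearMap.finrank_range_add_finrank_ker (dotl (orthoDerivative F a))
  have hsurj : LinearMap.range (dotl (orthoDerivative F a)) = ⊤ := by
    rw [LinearMap.range_eq_top]
    obtain ⟨l, hl⟩ := exists_dot_ne h1
    intro c
    refine ⟨c • l, ?_⟩
    show orthoDerivative F a ⬝ᵥ (c • l) = c
    rw [dotProduct_smul, dotProduct_comm, hl, smul_eq_mul, mul_one]
  rw [hsurj, finrank_top, finrank_V, Module.finrank_self] at hk
  have heq : LinearMap.range (Blin hF a) = LinearMap.ker (dotl (orthoDerivative F a)) :=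
    Submodule.eq_of_le_of_finrank_eq hle (by omega)
  have hmem : b ∈ LinearMap.range (Blin hF a) := by
    rw [heq]
    exact hb
  exact hmem

/-- the vector `π(a)` is unique -/
theorem ortho_unique {F : V n → V n} (hF : DegreeLE F 2) (hA : IsAPN F) {a u : V n} (ha : a ≠ 0)
    (hu : u ≠ 0) (h : ∀ x : V n, u ⬝ᵥ (deriv F a x + deriv F a 0) = 0) :
    u = orthoDerivative F a := by
  obtain ⟨h1, h2⟩ := ortho_spec hF hA ha
  have hk : ∀ y, orthoDerivative F a ⬝ᵥ y = 0 → u ⬝ᵥ y = 0 := by
    intro y hy
    obtain ⟨x, rfl⟩ := exists_partner hF hA ha hy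
    rw [← deriv_eq]
    exact h x
  obtain ⟨l, hl⟩ := exists_dot_ne h1
  rw [dotProduct_comm] at hl
  have hall : ∀ y, u ⬝ᵥ y = (u ⬝ᵥ l) * (orthoDerivative F a ⬝ᵥ y) := by
    intro y
    rcases z2 (orthoDerivative F a ⬝ᵥ y) with hy | hy
    · rw [hk y hy, hy, mul_zero]
    · have h3 : orthoDerivative F a ⬝ᵥ (y + l) = 0 := by
        rw [dotProduct_add, hy, hl]; decide
      have h4 := hk _ h3
      rw [dotProduct_add] at h4
      rw [hy, mul_one]
      calc u ⬝ᵥ y = u ⬝ᵥ y + (u ⬝ᵥ l + u ⬝ᵥ l) := by rw [CharTwo.add_self_eq_zero, add_zero]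
        _ = (u ⬝ᵥ y + u ⬝ᵥ l) + u ⬝ᵥ l := by rw [add_assoc]
        _ = u ⬝ᵥ l := by rw [h4, zero_add]
  have hc : u ⬝ᵥ l = 1 := by
    rcases z2 (u ⬝ᵥ l) with hc | hc
    · exfalso
      obtain ⟨m, hm⟩ := exists_dot_ne hu
      rw [dotProduct_comm, hall, hc, zero_mul] at hm
      exact zero_ne_one hm
    · exact hc
  funext i
  have := hall (Pi.single i 1)
  rw [hc, one_mul, dotProduct_single, dotProduct_single, mul_one, mul_one] at this
  exact this

/-- three linear forms in at least four variables have a common nontrivial zero -/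
theorem exists_common_zero (hn : 4 ≤ n) (f g h : V n →ₗ[ZMod 2] ZMod 2) :
    ∃ t : V n, t ≠ 0 ∧ f t = 0 ∧ g t = 0 ∧ h t = 0 := by
  have hlt : Module.finrank (ZMod 2) (ZMod 2 × ZMod 2 × ZMod 2) < Module.finrank (ZMod 2) (V n) := by
    rw [finrank_V]
    simp
    omega
  obtain ⟨t, ht, ht0⟩ := (Submodule.ne_bot_iff _).1
    (LinearMap.ker_ne_bot_of_finrank_lt (f := f.prod (g.prod h)) hlt)
  rw [LinearMap.mem_ker] at ht
  exact ⟨t, ht0, congrArg Prod.fst ht, congrArg (fun q => q.2.1) ht, congrArg (fun q => q.2.2) ht⟩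

theorem single_expand (f : V n →ₗ[ZMod 2] ZMod 2) (y : V n) :
    f y = ∑ j, y j * f (Pi.single j 1) := by
  have : y = ∑ j, y j • (Pi.single j 1 : V n) := by
    funext k
    simp [Finset.sum_apply, Pi.single_apply]
  conv_lhs => rw [this]
  rw [map_sum]
  simp only [map_smul, smul_eq_mul]

theorem no_affine_component (hn : 4 ≤ n) {F : V n → V n} (hF : DegreeLE F 2) (hA : IsAPN F)
    {b u : V n} (hb : b ≠ 0) (hu : ∀ x, b ⬝ᵥ orthoDerivative F x = u ⬝ᵥ x) : False := by
  classical
  -- partners
  have hpart : ∀ x : V n, x ≠ 0 → u ⬝ᵥ x = 0 → ∃ y, B F x y = b := by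
    intro x hx h
    apply exists_partner hF hA hx
    rw [dotProduct_comm, hu, h]
  have hY : ∃ Y : V n → V n, ∀ x : V n, x ≠ 0 → u ⬝ᵥ x = 0 → B F x (Y x) = b := by
    refine ⟨fun x => if h : x ≠ 0 ∧ u ⬝ᵥ x = 0 then (hpart x h.1 h.2).choose else 0, ?_⟩
    intro x hx h
    have hd : x ≠ 0 ∧ u ⬝ᵥ x = 0 := ⟨hx, h⟩
    simp only [dif_pos hd]
    exact (hpart x hx h).choose_spec
  obtain ⟨Y, hY⟩ := hY
  have Badd' : ∀ x y z : V n, B F (x + y) z = B F x z + B F y z := by
    intro x y z
    rw [B_comm, B_add hF, B_comm F z x, B_comm F z y]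
  have hne0 : ∀ x y : V n, B F x y = b → y ≠ 0 := by
    rintro x y h rfl
    rw [B_zero] at h
    exact hb h.symm
  have hmemK : ∀ x y : V n, B F x y = b → u ⬝ᵥ y = 0 := by
    intro x y h
    have hy := hne0 x y h
    rw [B_comm] at h
    rw [← hu y, dotProduct_comm, ← h]
    exact (ortho_spec hF hA hy).2 x
  have huniq : ∀ x y y' : V n, x ≠ 0 → B F x y = b → B F x y' = b → y' = y ∨ y' = y + x := by
    intro x y y' hx h h'
    have h0 : B F x (y + y') = 0 := by rw [B_add hF, h, h', add_self']
    rcases B_eq_zero hA hx h0 with h1 | h1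
    · left
      calc y' = (y + y) + y' := by rw [add_self', zero_add]
        _ = y + (y + y') := by rw [add_assoc]
        _ = y := by rw [h1, add_zero]
    · right
      calc y' = (y + y) + y' := by rw [add_self', zero_add]
        _ = y + (y + y') := by rw [add_assoc]
        _ = y + x := by rw [h1]
  -- the key parity lemma
  have key : ∀ φ ψ : V n →ₗ[ZMod 2] ZMod 2,
      ∑ x ∈ (univ : Finset (V n)).filter (fun x => u ⬝ᵥ x = 0 ∧ φ x = 1 ∧ ψ x = 0), ψ (Y x) = 0 := by
    intro φ ψ
    set X := (univ : Finset (V n)).filter (fun x => u ⬝ᵥ x = 0 ∧ φ x = 1 ∧ ψ x = 0) with hX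
    have hXm : ∀ x, x ∈ X ↔ u ⬝ᵥ x = 0 ∧ φ x = 1 ∧ ψ x = 0 := by
      intro x; rw [hX, mem_filter]; simp
    obtain ⟨t, ht0, ht1, ht2, ht3⟩ := exists_common_zero hn (dotl u) φ ψ
    have ht1' : u ⬝ᵥ t = 0 := ht1
    have s1 : ∑ x ∈ X, (1 : ZMod 2) = 0 := by
      refine Finset.sum_involution (fun x _ => x + t) ?_ ?_ ?_ ?_
      · intro x _; decide
      · intro x _ _ h
        apply ht0
        have : x + t = x + 0 := by rw [h, add_zero]
        exact add_left_cancel this
      · intro x hx
        rw [hXm] at hx ⊢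
        rw [dotProduct_add, map_add, map_add, ht1', ht2, ht3, hx.1, hx.2.1, hx.2.2]
        decide
      · intro x _
        show x + t + t = x
        rw [add_assoc, add_self', add_zero]
    -- the partner with `φ = 0`
    let P : V n → V n := fun x => if φ (Y x) = 0 then Y x else Y x + x
    have hP : ∀ x ∈ X, B F x (P x) = b ∧ φ (P x) = 0 ∧ x ≠ 0 ∧ ψ (P x) = ψ (Y x) := by
      intro x hx
      rw [hXm] at hx
      obtain ⟨h1, h2, h3⟩ := hx
      have hx0 : x ≠ 0 := by
        rintro rfl
        rw [map_zero] at h2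
        exact absurd h2 (by decide)
      have hYx := hY x hx0 h1
      by_cases hφ : φ (Y x) = 0
      · have e : P x = Y x := if_pos hφ
        rw [e]
        exact ⟨hYx, hφ, hx0, rfl⟩
      · have e : P x = Y x + x := if_neg hφ
        have hφ1 := (z2 _).resolve_left hφ
        rw [e]
        refine ⟨?_, ?_, hx0, ?_⟩
        · rw [B_add hF, B_self, add_zero, hYx]
        · rw [map_add, hφ1, h2]; decide
        · rw [map_add, h3, add_zero]
    have hstep : ∀ x ∈ X, ψ (Y x) = 0 → x + P x ∈ X ∧ P (x + P x) = P x ∧ ψ (Y (x + P x)) = 0 := by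
      intro x hx h0
      obtain ⟨p1, p2, p3, p4⟩ := hP x hx
      have hx' := (hXm x).1 hx
      have hmem : x + P x ∈ X := by
        rw [hXm, dotProduct_add, map_add, map_add, hx'.1, hx'.2.1, hx'.2.2, p2, p4, h0,
          hmemK x (P x) p1]
        decide
      obtain ⟨q1, q2, q3, q4⟩ := hP _ hmem
      have hB' : B F (x + P x) (P x) = b := by rw [Badd', B_self, add_zero, p1]
      have hPP : P (x + P x) = P x := by
        rcases huniq _ _ _ q3 hB' q1 with h | h
        · exact h
        · exfalso
          rw [h, map_add, p2, map_add, p2, hx'.2.1] at q2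
          exact absurd q2 (by decide)
      refine ⟨hmem, hPP, ?_⟩
      rw [← q4, hPP, p4, h0]
    have s2 : ∑ x ∈ X, (1 + ψ (Y x)) = 0 := by
      refine Finset.sum_involution (fun x _ => if ψ (Y x) = 0 then x + P x else x) ?_ ?_ ?_ ?_
      · intro x hx
        by_cases h0 : ψ (Y x) = 0
        · simp only [if_pos h0]
          rw [(hstep x hx h0).2.2, h0]
          decide
        · simp only [if_neg h0]
          exact CharTwo.add_self_eq_zero _
      · intro x hx hne
        have h0 : ψ (Y x) = 0 := by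
          rcases z2 (ψ (Y x)) with h | h
          · exact h
          · rw [h] at hne
            exact absurd (by decide) hne
        simp only [if_pos h0]
        intro h
        have hPx := hne0 x (P x) (hP x hx).1
        apply hPx
        have : x + P x = x + 0 := by rw [h, add_zero]
        exact add_left_cancel this
      · intro x hx
        by_cases h0 : ψ (Y x) = 0
        · simp only [if_pos h0]
          exact (hstep x hx h0).1
        · simp only [if_neg h0]
          exact hx
      · intro x hx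
        by_cases h0 : ψ (Y x) = 0
        · simp only [if_pos h0, if_pos (hstep x hx h0).2.2]
          rw [(hstep x hx h0).2.1, add_assoc, add_self', add_zero]
        · simp only [if_neg h0]
    rw [Finset.sum_add_distrib, s1, zero_add] at s2
    exact s2
  -- alternating sums vanish
  have alt : ∀ φ ψ : V n →ₗ[ZMod 2] ZMod 2,
      ∑ x ∈ (univ : Finset (V n)).filter (fun x => u ⬝ᵥ x = 0 ∧ x ≠ 0),
        (φ x * ψ (Y x) + ψ x * φ (Y x)) = 0 := by
    intro φ ψ
    have k1 := key φ ψ
    have k2 := key ψ φ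
    have k3 := key φ (φ + ψ)
    rw [Finset.sum_filter] at k1 k2 k3 ⊢
    have : ∀ x : V n, (if u ⬝ᵥ x = 0 ∧ x ≠ 0 then φ x * ψ (Y x) + ψ x * φ (Y x) else 0) =
        (if u ⬝ᵥ x = 0 ∧ φ x = 1 ∧ ψ x = 0 then ψ (Y x) else 0)
        + (if u ⬝ᵥ x = 0 ∧ ψ x = 1 ∧ φ x = 0 then φ (Y x) else 0)
        + (if u ⬝ᵥ x = 0 ∧ φ x = 1 ∧ (φ + ψ) x = 0 then (φ + ψ) (Y x) else 0) := by
      intro x
      by_cases hux : u ⬝ᵥ x = 0
      · by_cases hx : x = 0
        · subst hx
          simp
        · simp only [hux, hx, true_and, ne_eq, not_false_iff, if_true, LinearMap.add_apply]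
          generalize ψ (Y x) = p
          generalize φ (Y x) = q
          generalize φ x = c
          generalize ψ x = d
          revert p q c d
          decide
      · simp [hux]
    rw [Finset.sum_congr rfl fun x _ => this x, Finset.sum_add_distrib, Finset.sum_add_distrib,
      k1, k2, k3]
    decide
  obtain ⟨l, hl⟩ := exists_dot_ne hb
  set S := (univ : Finset (V n)).filter (fun x => u ⬝ᵥ x = 0 ∧ x ≠ 0) with hS
  have hSm : ∀ x, x ∈ S ↔ u ⬝ᵥ x = 0 ∧ x ≠ 0 := by
    intro x; rw [hS, mem_filter]; simp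
  -- the sum is one
  have t1 : ∑ x ∈ S, l ⬝ᵥ B F x (Y x) = ∑ x ∈ S, (1 : ZMod 2) := by
    refine Finset.sum_congr rfl fun x hx => ?_
    rw [hSm] at hx
    rw [hY x hx.2 hx.1, hl]
  have t2 : ∑ x ∈ S, (1 : ZMod 2) = 1 := by
    obtain ⟨t, ht0, ht1, _, _⟩ := exists_common_zero hn (dotl u) (dotl u) (dotl u)
    have ht1' : u ⬝ᵥ t = 0 := ht1
    have hK : ∑ x ∈ (univ : Finset (V n)).filter (fun x => u ⬝ᵥ x = 0), (1 : ZMod 2) = 0 := by
      refine Finset.sum_involution (fun x _ => x + t) ?_ ?_ ?_ ?_
      · intro x _; decide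
      · intro x _ _ h
        apply ht0
        have : x + t = x + 0 := by rw [h, add_zero]
        exact add_left_cancel this
      · intro x hx
        rw [mem_filter] at hx ⊢
        refine ⟨mem_univ _, ?_⟩
        rw [dotProduct_add, hx.2, ht1', add_zero]
      · intro x _
        show x + t + t = x
        rw [add_assoc, add_self', add_zero]
    have hins : (univ : Finset (V n)).filter (fun x => u ⬝ᵥ x = 0) = insert 0 S := by
      ext x
      rw [mem_insert, hSm, mem_filter]
      constructor
      · rintro ⟨-, h⟩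
        by_cases hx : x = 0
        · left; exact hx
        · right; exact ⟨h, hx⟩
      · rintro (rfl | ⟨h, -⟩)
        · exact ⟨mem_univ _, dotProduct_zero u⟩
        · exact ⟨mem_univ _, h⟩
    have h0S : (0 : V n) ∉ S := by
      rw [hSm]; simp
    rw [hins, Finset.sum_insert h0S] at hK
    rcases z2 (∑ x ∈ S, (1 : ZMod 2)) with h | h
    · rw [h] at hK
      exact absurd hK (by decide)
    · exact h
  -- the sum is zero
  have hexp : ∀ x y : V n, l ⬝ᵥ B F x y = ∑ p : Fin n × Fin n,
      l ⬝ᵥ B F (Pi.single p.1 1) (Pi.single p.2 1) * (x p.1 * y p.2) := by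
    intro x y
    have e1 := single_expand ((dotl l).comp (Blin hF x)) y
    have e2 : ∀ j : Fin n, (dotl l) (B F x (Pi.single j 1)) =
        ∑ i, x i * (dotl l) (B F (Pi.single i 1) (Pi.single j 1)) := by
      intro j
      have := single_expand ((dotl l).comp (Blin hF (Pi.single j 1))) x
      simp only [LinearMap.comp_apply, Blin_apply] at this
      rw [B_comm, this]
      refine Finset.sum_congr rfl fun i _ => ?_
      rw [B_comm]
    simp only [LinearMap.comp_apply, Blin_apply] at e1
    have e3 : l ⬝ᵥ B F x y = (dotl l) (B F x y) := rfl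
    rw [e3, e1, Fintype.sum_prod_type_right]
    refine Finset.sum_congr rfl fun j _ => ?_
    rw [e2, Finset.mul_sum]
    refine Finset.sum_congr rfl fun i _ => ?_
    show y j * (x i * (l ⬝ᵥ B F (Pi.single i 1) (Pi.single j 1))) =
      l ⬝ᵥ B F (Pi.single i 1) (Pi.single j 1) * (x i * y j)
    ring
  have t3 : ∑ x ∈ S, l ⬝ᵥ B F x (Y x) = 0 := by
    rw [Finset.sum_congr rfl fun x _ => hexp x (Y x), Finset.sum_comm]
    simp only [← Finset.mul_sum]
    refine Finset.sum_involution (fun p _ => (p.2, p.1)) ?_ ?_ ?_ ?_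
    · rintro ⟨i, j⟩ _
      have ha := alt (LinearMap.proj i) (LinearMap.proj j)
      rw [Finset.sum_add_distrib] at ha
      simp only [LinearMap.proj_apply] at ha
      show l ⬝ᵥ B F (Pi.single i 1) (Pi.single j 1) * (∑ x ∈ S, x i * Y x j) +
        l ⬝ᵥ B F (Pi.single j 1) (Pi.single i 1) * (∑ x ∈ S, x j * Y x i) = 0
      rw [B_comm F (Pi.single j 1), ← mul_add, ha, mul_zero]
    · rintro ⟨i, j⟩ _ hne h
      apply hne
      have hij : j = i := congrArg Prod.fst h
      subst hij
      rw [B_self, dotProduct_zero, zero_mul]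
    · intro p _; exact mem_univ _
    · rintro ⟨i, j⟩ _; rfl
  rw [t1, t2] at t3
  exact absurd t3 (by decide)

end general

/-- the cross product on `F_2 ^ 3` is the polar form of this function -/
def crossF (x : V 3) : V 3 := ![x 1 * x 2, x 0 * x 2, x 0 * x 1]

theorem crossF_quadratic : IsQuadratic crossF := by
  constructor
  · intro i
    fin_cases i
    · refine ⟨MvPolynomial.X 1 * MvPolynomial.X 2, ?_, ?_⟩
      · refine (MvPolynomial.totalDegree_mul _ _).trans ?_
        rw [MvPolynomial.totalDegree_X, MvPolynomial.totalDegree_X]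
      · intro x; simp [crossF]
    · refine ⟨MvPolynomial.X 0 * MvPolynomial.X 2, ?_, ?_⟩
      · refine (MvPolynomial.totalDegree_mul _ _).trans ?_
        rw [MvPolynomial.totalDegree_X, MvPolynomial.totalDegree_X]
      · intro x; simp [crossF]
    · refine ⟨MvPolynomial.X 0 * MvPolynomial.X 1, ?_, ?_⟩
      · refine (MvPolynomial.totalDegree_mul _ _).trans ?_
        rw [MvPolynomial.totalDegree_X, MvPolynomial.totalDegree_X]
      · intro x; simp [crossF]
  · intro h
    obtain ⟨p, hp, he⟩ := h 0
    -- a polynomial of degree at most one has vanishing second differences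
    have h2 : ∀ x y : V 3, MvPolynomial.eval (x + y) p + MvPolynomial.eval x p
        + MvPolynomial.eval y p + MvPolynomial.eval (0 : V 3) p = 0 := by
      intro x y
      simp only [eval_eq_sum, ← Finset.sum_add_distrib]
      refine Finset.sum_eq_zero fun m hm => ?_
      have hc : (Finsupp.toMultiset m).card ≤ 1 := by
        rw [Finsupp.card_toMultiset]
        exact (MvPolynomial.le_totalDegree hm).trans hp
      rw [← mul_add, ← mul_add, ← mul_add]
      have hc' : (Finsupp.toMultiset m).card = 0 ∨ (Finsupp.toMultiset m).card = 1 := by omega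
      generalize Finsupp.toMultiset m = s at *
      rcases hc' with h | h
      · rw [Multiset.card_eq_zero] at h
        subst h
        simp only [Multiset.map_zero, Multiset.prod_zero]
        have : (1 + 1 + 1 + 1 : ZMod 2) = 0 := by decide
        rw [this, mul_zero]
      · obtain ⟨i, rfl⟩ := Multiset.card_eq_one.1 h
        simp only [Multiset.map_singleton, Multiset.prod_singleton, Pi.add_apply, Pi.zero_apply]
        have : ∀ a b : ZMod 2, a + b + a + b + 0 = 0 := by decide
        rw [this, mul_zero]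
    have h3 := h2 (Pi.single 1 1) (Pi.single 2 1)
    simp only [he] at h3
    revert h3
    decide

theorem crossF_deriv (a x : V 3) : deriv crossF a x + deriv crossF a 0 =
    ![a 1 * x 2 + a 2 * x 1, a 0 * x 2 + a 2 * x 0, a 0 * x 1 + a 1 * x 0] := by
  unfold deriv crossF
  funext i
  fin_cases i
  · simp
    generalize a 1 = p; generalize a 2 = q; generalize x 1 = r; generalize x 2 = s
    revert p q r s; decide
  · simp
    generalize a 0 = p; generalize a 2 = q; generalize x 0 = r; generalize x 2 = s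
    revert p q r s; decide
  · simp
    generalize a 0 = p; generalize a 1 = q; generalize x 0 = r; generalize x 1 = s
    revert p q r s; decide

theorem cross_zero {a d : V 3} (ha : a ≠ 0)
    (h : deriv crossF a d + deriv crossF a 0 = 0) : d = 0 ∨ d = a := by
  rw [crossF_deriv] at h
  have h0 := congrFun h 0
  have h1 := congrFun h 1
  have h2 := congrFun h 2
  simp only [Matrix.cons_val_zero, Matrix.cons_val_one, Matrix.cons_val, Pi.zero_apply] at h0 h1 h2
  have ha' : ¬ (a 0 = 0 ∧ a 1 = 0 ∧ a 2 = 0) := by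
    rintro ⟨e0, e1, e2⟩
    apply ha
    funext i
    fin_cases i
    · exact e0
    · exact e1
    · exact e2
  have hd : (d 0 = 0 ∧ d 1 = 0 ∧ d 2 = 0) ∨ (d 0 = a 0 ∧ d 1 = a 1 ∧ d 2 = a 2) := by
    revert h0 h1 h2 ha'
    generalize a 0 = a0
    generalize a 1 = a1
    generalize a 2 = a2
    generalize d 0 = d0
    generalize d 1 = d1
    generalize d 2 = d2
    rcases z2 a0 with rfl | rfl <;> rcases z2 a1 with rfl | rfl <;>
      rcases z2 a2 with rfl | rfl <;> revert d0 d1 d2 <;> decide
  rcases hd with ⟨e0, e1, e2⟩ | ⟨e0, e1, e2⟩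
  · left
    funext i
    fin_cases i
    · exact e0
    · exact e1
    · exact e2
  · right
    funext i
    fin_cases i
    · exact e0
    · exact e1
    · exact e2

theorem crossF_apn : IsAPN crossF := by
  intro a ha b
  rcases Set.eq_empty_or_nonempty {x : V 3 | deriv crossF a x = b} with h | ⟨x0, hx0⟩
  · rw [h, Set.ncard_empty]; norm_num
  · have hsub : {x : V 3 | deriv crossF a x = b} ⊆ {x0, x0 + a} := by
      intro x hx
      have e1 : deriv crossF a x = deriv crossF a x0 := by
        have e2 : deriv crossF a x = b := hx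
        have e3 : deriv crossF a x0 = b := hx0
        rw [e2, e3]
      have e4 : B crossF a (x + x0) = 0 := by
        rw [B_add crossF_quadratic.1, ← deriv_eq, ← deriv_eq, e1, add_self']
      rw [← deriv_eq] at e4
      rcases cross_zero ha e4 with h | h
      · left
        calc x = x + (x0 + x0) := by rw [add_self', add_zero]
          _ = (x + x0) + x0 := by rw [add_assoc]
          _ = x0 := by rw [h, zero_add]
      · right
        show x = x0 + a
        calc x = x + (x0 + x0) := by rw [add_self', add_zero]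
          _ = (x + x0) + x0 := by rw [add_assoc]
          _ = x0 + a := by rw [h, add_comm]
    refine (Set.ncard_le_ncard hsub (Set.toFinite _)).trans ?_
    refine (Set.ncard_insert_le _ _).trans ?_
    rw [Set.ncard_singleton]

theorem cross_unique (a0 a1 a2 d0 d1 d2 : ZMod 2) (ha : ¬ (a0 = 0 ∧ a1 = 0 ∧ a2 = 0))
    (hd : ¬ (d0 = 0 ∧ d1 = 0 ∧ d2 = 0)) (h0 : a1 * d2 + a2 * d1 = 0) (h1 : a0 * d2 + a2 * d0 = 0)
    (h2 : a0 * d1 + a1 * d0 = 0) : d0 = a0 ∧ d1 = a1 ∧ d2 = a2 := by
  rcases z2 a0 with rfl | rfl <;> rcases z2 a1 with rfl | rfl <;>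
    rcases z2 a2 with rfl | rfl <;> rcases z2 d0 with rfl | rfl <;>
    rcases z2 d1 with rfl | rfl <;> rcases z2 d2 with rfl | rfl <;> simp_all

theorem ext3 {a b : V 3} (h0 : a 0 = b 0) (h1 : a 1 = b 1) (h2 : a 2 = b 2) : a = b := by
  funext i
  fin_cases i
  · exact h0
  · exact h1
  · exact h2

/-- the polar form in dimension three -/
theorem B_three {F : V 3 → V 3} (hF : DegreeLE F 2) (x y : V 3) :
    B F x y = (x 1 * y 2 + x 2 * y 1) • B F (Pi.single 1 1) (Pi.single 2 1)
      + (x 0 * y 2 + x 2 * y 0) • B F (Pi.single 0 1) (Pi.single 2 1)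
      + (x 0 * y 1 + x 1 * y 0) • B F (Pi.single 0 1) (Pi.single 1 1) := by
  have hexp : ∀ z : V 3, z = z 0 • (Pi.single 0 1 : V 3) + z 1 • (Pi.single 1 1 : V 3)
      + z 2 • (Pi.single 2 1 : V 3) := by
    intro z
    apply ext3 <;> simp
  have e1 : ∀ x z : V 3, B F x z = z 0 • B F x (Pi.single 0 1) + z 1 • B F x (Pi.single 1 1)
      + z 2 • B F x (Pi.single 2 1) := by
    intro x z
    have : Blin hF x z = Blin hF x (z 0 • (Pi.single 0 1 : V 3) + z 1 • (Pi.single 1 1 : V 3)
      + z 2 • (Pi.single 2 1 : V 3)) := by rw [← hexp z]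
    rw [map_add, map_add, map_smul, map_smul, map_smul] at this
    exact this
  rw [e1 x y, B_comm F x (Pi.single 0 1), B_comm F x (Pi.single 1 1), B_comm F x (Pi.single 2 1),
    e1 (Pi.single 0 1) x, e1 (Pi.single 1 1) x, e1 (Pi.single 2 1) x, B_self, B_self, B_self,
    B_comm F (Pi.single 1 1) (Pi.single 0 1), B_comm F (Pi.single 2 1) (Pi.single 0 1),
    B_comm F (Pi.single 2 1) (Pi.single 1 1)]
  generalize B F (Pi.single 1 1) (Pi.single 2 1) = w0
  generalize B F (Pi.single 0 1) (Pi.single 2 1) = w1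
  generalize B F (Pi.single 0 1) (Pi.single 1 1) = w2
  module

theorem dim_three {F : V 3 → V 3} (hF : DegreeLE F 2) (hA : IsAPN F) :
    ∃ b : V 3, b ≠ 0 ∧ ∀ x : V 3, b ⬝ᵥ orthoDerivative F x = x 0 := by
  have hne : ∀ x y : V 3, x ≠ 0 → y ≠ 0 → y ≠ x → B F x y ≠ 0 := by
    intro x y hx hy hxy h
    rcases B_eq_zero hA hx h with h | h
    · exact hy h
    · exact hxy h
  have hB := B_three hF
  set w0 := B F (Pi.single 1 1) (Pi.single 2 1) with hw0
  set w1 := B F (Pi.single 0 1) (Pi.single 2 1) with hw1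
  set w2 := B F (Pi.single 0 1) (Pi.single 1 1) with hw2
  have hw0ne : w0 ≠ 0 := hne _ _ (by decide) (by decide) (by decide)
  have hinj : ∀ a0 a1 a2 : ZMod 2, a0 • w0 + a1 • w1 + a2 • w2 = 0 → a0 = 0 ∧ a1 = 0 ∧ a2 = 0 := by
    intro a0 a1 a2 h
    rcases z2 a0 with rfl | rfl <;> rcases z2 a1 with rfl | rfl <;>
      rcases z2 a2 with rfl | rfl
    · exact ⟨rfl, rfl, rfl⟩
    · exfalso
      refine hne (Pi.single 0 1) (Pi.single 1 1) (by decide) (by decide) (by decide) ?_
      rw [hB]; exact h
    · exfalso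
      refine hne (Pi.single 0 1) (Pi.single 2 1) (by decide) (by decide) (by decide) ?_
      rw [hB]; exact h
    · exfalso
      refine hne ![1, 0, 0] ![0, 1, 1] (by decide) (by decide) (by decide) ?_
      rw [hB]; exact h
    · exfalso
      refine hne (Pi.single 1 1) (Pi.single 2 1) (by decide) (by decide) (by decide) ?_
      rw [hB]; exact h
    · exfalso
      refine hne ![1, 0, 1] ![0, 1, 0] (by decide) (by decide) (by decide) ?_
      rw [hB]; exact h
    · exfalso
      refine hne ![1, 1, 0] ![0, 0, 1] (by decide) (by decide) (by decide) ?_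
      rw [hB]; exact h
    · exfalso
      refine hne ![1, 1, 0] ![1, 0, 1] (by decide) (by decide) (by decide) ?_
      rw [hB]; exact h
  let W : V 3 →ₗ[ZMod 2] V 3 :=
    { toFun := fun a => a 0 • w0 + a 1 • w1 + a 2 • w2
      map_add' := by
        intro a b
        simp only [Pi.add_apply]
        module
      map_smul' := by
        intro c a
        simp only [Pi.smul_apply, smul_eq_mul, RingHom.id_apply]
        module }
  have hWinj : Function.Injective W := by
    rw [← LinearMap.ker_eq_bot, LinearMap.ker_eq_bot']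
    intro a ha
    obtain ⟨h0, h1, h2⟩ := hinj (a 0) (a 1) (a 2) ha
    exact ext3 h0 h1 h2
  have hWsurj : Function.Surjective W := LinearMap.injective_iff_surjective.1 hWinj
  refine ⟨w0, hw0ne, fun x => ?_⟩
  by_cases hx : x = 0
  · subst hx
    unfold orthoDerivative
    rw [if_pos rfl, dotProduct_zero]
    rfl
  obtain ⟨h1, h2⟩ := ortho_spec hF hA hx
  generalize orthoDerivative F x = q at *
  have hx' : ¬ (x 0 = 0 ∧ x 1 = 0 ∧ x 2 = 0) := by
    rintro ⟨e0, e1, e2⟩
    exact hx (ext3 e0 e1 e2)
  have hd : ¬ (q ⬝ᵥ w0 = 0 ∧ q ⬝ᵥ w1 = 0 ∧ q ⬝ᵥ w2 = 0) := by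
    rintro ⟨e0, e1, e2⟩
    obtain ⟨l, hl⟩ := exists_dot_ne h1
    obtain ⟨a, ha⟩ := hWsurj l
    have : q ⬝ᵥ l = 0 := by
      rw [← ha]
      show q ⬝ᵥ (a 0 • w0 + a 1 • w1 + a 2 • w2) = 0
      rw [dotProduct_add, dotProduct_add, dotProduct_smul, dotProduct_smul, dotProduct_smul,
        e0, e1, e2, smul_zero, smul_zero, smul_zero, add_zero, add_zero]
    rw [dotProduct_comm, hl] at this
    exact one_ne_zero this
  have k : ∀ y : V 3, (x 1 * y 2 + x 2 * y 1) * (q ⬝ᵥ w0) + (x 0 * y 2 + x 2 * y 0) * (q ⬝ᵥ w1)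
      + (x 0 * y 1 + x 1 * y 0) * (q ⬝ᵥ w2) = 0 := by
    intro y
    have := h2 y
    rw [hB, dotProduct_add, dotProduct_add, dotProduct_smul, dotProduct_smul, dotProduct_smul,
      smul_eq_mul, smul_eq_mul, smul_eq_mul] at this
    exact this
  have k0 := k ![1, 0, 0]
  have k1 := k ![0, 1, 0]
  have k2 := k ![0, 0, 1]
  simp only [Matrix.cons_val_zero, Matrix.cons_val_one, Matrix.cons_val, mul_zero, mul_one,
    zero_add, add_zero, zero_mul] at k0 k1 k2
  have hfin := cross_unique (x 0) (x 1) (x 2) (q ⬝ᵥ w0) (q ⬝ᵥ w1) (q ⬝ᵥ w2) hx' hd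
    (by rw [← k0]; ring) (by rw [← k1]; ring) (by rw [← k2]; ring)
  rw [dotProduct_comm]
  exact hfin.1

/-- **Nonlinearity of the ortho-derivative.** For `n ≥ 3` the nonlinearity of the ortho-derivative of
a quadratic APN function on `F_2 ^ n` is zero if and only if `n = 3`; and quadratic APN functions on
`F_2 ^ 3` exist. -/
theorem result :
    (∀ n : ℕ, 3 ≤ n → ∀ F : V n → V n, IsQuadratic F → IsAPN F →
      (nonlinearity (orthoDerivative F) = 0 ↔ n = 3)) ∧
    ∃ F : V 3 → V 3, IsQuadratic F ∧ IsAPN F := by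
  refine ⟨?_, crossF, crossF_quadratic, crossF_apn⟩
  intro n hn F hF hA
  constructor
  · intro h0
    by_contra hne
    have hn4 : 4 ≤ n := by omega
    -- the minimum is attained
    have hnonempty : {N : ℕ | ∃ b : V n, b ≠ 0 ∧ ∃ (u : V n) (c : ZMod 2),
        N = {x : V n | b ⬝ᵥ orthoDerivative F x ≠ u ⬝ᵥ x + c}.ncard}.Nonempty := by
      refine ⟨_, Pi.single ⟨0, by omega⟩ 1, ?_, 0, 0, rfl⟩
      intro h
      have := congrFun h ⟨0, by omega⟩
      rw [Pi.single_eq_same] at this
      exact one_ne_zero this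
    have hmem := Nat.sInf_mem hnonempty
    have h0' : sInf {N : ℕ | ∃ b : V n, b ≠ 0 ∧ ∃ (u : V n) (c : ZMod 2),
        N = {x : V n | b ⬝ᵥ orthoDerivative F x ≠ u ⬝ᵥ x + c}.ncard} = 0 := h0
    rw [h0'] at hmem
    obtain ⟨b, hb, u, c, hN⟩ := hmem
    have hemp : {x : V n | b ⬝ᵥ orthoDerivative F x ≠ u ⬝ᵥ x + c} = ∅ :=
      (Set.ncard_eq_zero (Set.toFinite _)).1 hN.symm
    have hall : ∀ x, b ⬝ᵥ orthoDerivative F x = u ⬝ᵥ x + c := by
      intro x
      by_contra hx
      have : x ∈ {x : V n | b ⬝ᵥ orthoDerivative F x ≠ u ⬝ᵥ x + c} := hx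
      rw [hemp] at this
      exact this
    have hc : c = 0 := by
      have := hall 0
      have e : orthoDerivative F 0 = 0 := by unfold orthoDerivative; rw [if_pos rfl]
      rw [e, dotProduct_zero, dotProduct_zero, zero_add] at this
      exact this.symm
    subst hc
    simp only [add_zero] at hall
    exact no_affine_component hn4 hF.1 hA hb hall
  · rintro rfl
    obtain ⟨b, hb, h⟩ := dim_three hF.1 hA
    apply Nat.sInf_eq_zero.2
    left
    refine ⟨b, hb, Pi.single 0 1, 0, ?_⟩
    symm
    rw [Set.ncard_eq_zero (Set.toFinite _)]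
    ext x
    simp [h]

end Pool.Agent.Results.MP_4cfb12_co.OnlyDimThreeH18
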